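import Pool.Agent.H705.RO.Stm2

/-! # The part `P_LOV` -/

set_option autoImplicit false

namespace Pool.Agent.H643.RO

open MeasureTheory ProbabilityTheory Filter Topology Finset
open Pool.Agent.H705.RO

/-- the first arguments are near integers -/
def Ak (N : ℕ) (g w s : ℕ → ℝ) (δ t : ℝ) : Set (range N → ℝ × ℝ) :=
  {y | ∀ i : range N, nr δ ((g i.1 + w i.1 * (y i).1) * t / (2 * Real.pi) + (y i).2 + s i.1)}

/-- the sum of the later waves is large -/
noncomputable def Bk (N M : ℕ) (a β g w : ℕ → ℝ) (t : ℝ) : Set (Ico N M → ℝ × ℝ) :=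
  {z | 1 ≤ |∑ i : Ico N M, a i.1 * Real.cos ((g i.1 + w i.1 * (z i).1) * t + 2 * Real.pi * (z i).2 + β i.1)|}

theorem meas_nr (δ : ℝ) : MeasurableSet {y : ℝ | nr δ y} := by
  have h3 : Measurable fun y : ℝ => ((⌊y + 1 / 2⌋ : ℤ) : ℝ) := by
    have h4 : Measurable fun y : ℝ => ⌊y + 1 / 2⌋ := Int.measurable_floor.comp (measurable_id.add_const _)
    exact (measurable_from_top (f := fun n : ℤ => (n : ℝ))).comp h4
  have h1 : Measurable fun y : ℝ => |y - ((round y : ℤ) : ℝ)| := by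
    have h2 : (fun y : ℝ => |y - ((round y : ℤ) : ℝ)|) = fun y : ℝ => |y - ((⌊y + 1 / 2⌋ : ℤ) : ℝ)| := by
      funext y
      rw [round_eq]
    rw [h2]
    exact continuous_abs.measurable.comp (measurable_id.sub h3)
  exact measurableSet_le h1 measurable_const

theorem meas_Ak (N : ℕ) (g w s : ℕ → ℝ) (δ t : ℝ) : MeasurableSet (Ak N g w s δ t) := by
  have h1 : Ak N g w s δ t = ⋂ i : range N, (fun y : range N → ℝ × ℝ =>
      (g i.1 + w i.1 * (y i).1) * t / (2 * Real.pi) + (y i).2 + s i.1) ⁻¹' {y | nr δ y} := by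
    ext y
    simp only [Ak, Set.mem_ofPred_eq, Set.mem_iInter, Set.mem_preimage]
  rw [h1]
  refine MeasurableSet.iInter fun i => ?_
  refine (meas_nr δ).preimage ?_
  have h2 : Measurable fun y : range N → ℝ × ℝ => y i := measurable_pi_apply i
  have h3 : Measurable fun y : range N → ℝ × ℝ => (y i).1 := h2.fst
  have h4 : Measurable fun y : range N → ℝ × ℝ => (y i).2 := h2.snd
  exact ((((h3.const_mul _).const_add _).mul_const _).div_const _ |>.add h4).add_const _

theorem meas_Bk (N M : ℕ) (a β g w : ℕ → ℝ) (t : ℝ) : MeasurableSet (Bk N M a β g w t) := by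
  have h1 : Measurable fun z : Ico N M → ℝ × ℝ =>
      |∑ i : Ico N M, a i.1 * Real.cos ((g i.1 + w i.1 * (z i).1) * t + 2 * Real.pi * (z i).2 + β i.1)| := by
    apply Continuous.measurable
    fun_prop
  exact measurableSet_le measurable_const h1

theorem one_le_prod (w : ℕ → ℝ) (hw : ∀ n, 0 < w n) (Δ : ℝ) (hΔ : 0 < Δ) (N : ℕ) :
    1 ≤ ∏ n ∈ range N, (1 + 2 * Real.pi / (w n * Δ)) := by
  have h1 : ∏ n ∈ range N, (1 : ℝ) ≤ ∏ n ∈ range N, (1 + 2 * Real.pi / (w n * Δ)) := by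
    refine Finset.prod_le_prod (fun _ _ => zero_le_one) (fun n _ => ?_)
    have h2 : 0 ≤ 2 * Real.pi / (w n * Δ) :=
      div_nonneg (by positivity) (mul_pos (hw n) hΔ).le
    linarith
  rwa [Finset.prod_const_one] at h1

theorem T_LOV (hJM : P_JM) (hVL1 : P_VL1) (hVL2 : P_VL2) (hAL : P_AL) (hHOE : P_HOE) : P_LOV := by
  intro Ω _ P X hM a β g w s ha hw δ Δ v T hδ hδ1 hΔ hv hT N M hNM hsum
  have := hM.prob
  have hprod := one_le_prod w hw Δ hΔ N
  set Q : ℝ := ∏ n ∈ range N, (1 + 2 * Real.pi / (w n * Δ)) with hQ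
  have hind : IndepFun (fun ω (i : range N) => X i ω) (fun ω (i : Ico N M) => X i ω) P := by
    refine hM.indep.indepFun_finset (range N) (Ico N M) ?_ hM.meas
    rw [Finset.disjoint_left]
    intro n h1 h2
    rw [Finset.mem_range] at h1
    rw [Finset.mem_Ico] at h2
    omega
  -- the events in terms of the first and of the later variables
  have hA : ∀ (t : ℝ) (ω : Ω), (fun (i : range N) => X i ω) ∈ Ak N g w s δ t ↔
      ∀ n < N, nr δ (arg g w s (fun n => X n ω) n t) := by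
    intro t ω
    constructor
    · intro h n hn
      exact h ⟨n, Finset.mem_range.2 hn⟩
    · rintro h ⟨n, hn⟩
      exact h n (Finset.mem_range.1 hn)
  have hB : ∀ (t : ℝ) (ω : Ω), (fun (i : Ico N M) => X i ω) ∈ Bk N M a β g w t ↔
      1 ≤ |∑ n ∈ Ico N M, wave a β g w (fun n => X n ω) n t| := by
    intro t ω
    have h1 : ∑ i : Ico N M, a i.1 * Real.cos ((g i.1 + w i.1 * (X i.1 ω).1) * t + 2 * Real.pi * (X i.1 ω).2 + β i.1) =
        ∑ n ∈ Ico N M, wave a β g w (fun n => X n ω) n t :=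
      Finset.sum_coe_sort (Ico N M) (fun n => wave a β g w (fun n => X n ω) n t)
    show 1 ≤ |∑ i : Ico N M, a i.1 * Real.cos ((g i.1 + w i.1 * (X i.1 ω).1) * t + 2 * Real.pi * (X i.1 ω).2 + β i.1)| ↔ _
    rw [h1]
  -- the two random sets
  set G : Set (Ω × ℝ) := {z : Ω × ℝ | ∀ n < N, nr δ (arg g w s (fun n => X n z.1) n z.2)} with hG
  set H : Set (Ω × ℝ) := {z : Ω × ℝ | 1 ≤ |∑ n ∈ Ico N M, wave a β g w (fun n => X n z.1) n z.2|} with hH
  have hGm : MeasurableSet G := (hJM Ω P X hM a β g w s δ N N M).1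
  have hHm : MeasurableSet H := (hJM Ω P X hM a β g w s δ N N M).2
  have hq : 0 < δ ^ N := pow_pos hδ N
  -- the second moment method
  have h1 := hVL1 Ω P G T (δ ^ N) (Q - 1) Δ hGm hT hq (by linarith) hΔ.le (by
      intro t _ _
      exact (hAL Ω P X hM g w s δ hw hδ.le hδ1 N).1 t) (by
      intro t t' _ _ _ _ htt
      have h3 := (hAL Ω P X hM g w s δ hw hδ.le hδ1 N).2 Δ t t' hΔ htt
      have h4 : (δ ^ N) ^ 2 * (1 + (Q - 1)) = δ ^ (2 * N) * Q := by
        rw [← pow_mul, mul_comm N 2]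
        ring
      rw [h4]
      exact h3)
  -- the first moment
  have h2 := hVL2 Ω P (G ∩ H) T (δ ^ N * (2 * Real.exp (-(1 / (2 * v))))) (T * δ ^ N / 4) (hGm.inter hHm) hT
    (by positivity) (by positivity) (by
      intro t _ _
      have h5 : {ω | (ω, t) ∈ G ∩ H} = (fun ω (i : range N) => X i ω) ⁻¹' (Ak N g w s δ t) ∩
          (fun ω (i : Ico N M) => X i ω) ⁻¹' (Bk N M a β g w t) := by
        ext ω
        exact and_congr (hA t ω).symm (hB t ω).symm
      rw [h5, hind.measure_inter_preimage_eq_mul _ _ (meas_Ak N g w s δ t) (meas_Bk N M a β g w t),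
        ENNReal.ofReal_mul hq.le]
      refine mul_le_mul' (le_of_eq ?_) ?_
      · rw [← (hAL Ω P X hM g w s δ hw hδ.le hδ1 N).1 t]
        congr 1
        ext ω
        exact hA t ω
      · have h6 := hHOE Ω P X hM a β g w ha t N M 1 v one_pos hv hsum
        rw [one_pow] at h6
        refine le_trans (measure_mono ?_) h6
        intro ω hω
        exact (hB t ω).1 hω)
  have h3 : T * (δ ^ N * (2 * Real.exp (-(1 / (2 * v))))) / (T * δ ^ N / 4) = 8 * Real.exp (-(1 / (2 * v))) := by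
    have hT0 : T ≠ 0 := hT.ne'
    have hq0 : δ ^ N ≠ 0 := hq.ne'
    generalize Real.exp (-(1 / (2 * v))) = E
    generalize δ ^ N = q at hq0
    field_simp
    ring
  rw [h3] at h2
  have h4 : 0 ≤ 8 * Δ / (T * δ ^ N) + 4 * (Q - 1) := by
    have h5 : 0 ≤ 8 * Δ / (T * δ ^ N) := by positivity
    linarith
  calc P {ω | (volume : Measure ℝ) {t : ℝ | 0 ≤ t ∧ t ≤ T ∧ (∀ n < N, nr δ (arg g w s (fun n => X n ω) n t)) ∧
          |∑ n ∈ Ico N M, wave a β g w (fun n => X n ω) n t| ≤ 1} < ENNReal.ofReal (T * δ ^ N / 4)}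
      ≤ P ({ω | (volume : Measure ℝ) {t : ℝ | 0 ≤ t ∧ t ≤ T ∧ (ω, t) ∈ G} < ENNReal.ofReal (T * δ ^ N / 2)} ∪
          {ω | ENNReal.ofReal (T * δ ^ N / 4) ≤
            (volume : Measure ℝ) {t : ℝ | 0 ≤ t ∧ t ≤ T ∧ (ω, t) ∈ G ∩ H}}) := by
        refine measure_mono ?_
        intro ω hω
        by_contra hcon
        rw [Set.mem_union, not_or] at hcon
        have h6 : ENNReal.ofReal (T * δ ^ N / 2) ≤ (volume : Measure ℝ) {t : ℝ | 0 ≤ t ∧ t ≤ T ∧ (ω, t) ∈ G} :=
          not_lt.1 hcon.1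
        have h7 : (volume : Measure ℝ) {t : ℝ | 0 ≤ t ∧ t ≤ T ∧ (ω, t) ∈ G ∩ H} < ENNReal.ofReal (T * δ ^ N / 4) :=
          not_le.1 hcon.2
        have h8 : (volume : Measure ℝ) {t : ℝ | 0 ≤ t ∧ t ≤ T ∧ (ω, t) ∈ G} ≤
            (volume : Measure ℝ) {t : ℝ | 0 ≤ t ∧ t ≤ T ∧ (∀ n < N, nr δ (arg g w s (fun n => X n ω) n t)) ∧
              |∑ n ∈ Ico N M, wave a β g w (fun n => X n ω) n t| ≤ 1} +
            (volume : Measure ℝ) {t : ℝ | 0 ≤ t ∧ t ≤ T ∧ (ω, t) ∈ G ∩ H} := by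
          refine le_trans (measure_mono ?_) (measure_union_le _ _)
          rintro t ⟨ht0, htT, htG⟩
          rcases le_total |∑ n ∈ Ico N M, wave a β g w (fun n => X n ω) n t| 1 with h9 | h9
          · exact Or.inl ⟨ht0, htT, htG, h9⟩
          · exact Or.inr ⟨ht0, htT, htG, h9⟩
        have h9 : ENNReal.ofReal (T * δ ^ N / 2) = ENNReal.ofReal (T * δ ^ N / 4) + ENNReal.ofReal (T * δ ^ N / 4) := by
          rw [← ENNReal.ofReal_add (by positivity) (by positivity)]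
          congr 1
          ring
        have h10 := lt_of_le_of_lt (le_trans h6 h8) (ENNReal.add_lt_add hω h7)
        rw [h9] at h10
        exact lt_irrefl _ h10
    _ ≤ _ := measure_union_le _ _
    _ ≤ ENNReal.ofReal (8 * Δ / (T * δ ^ N) + 4 * (Q - 1)) + ENNReal.ofReal (8 * Real.exp (-(1 / (2 * v)))) :=
        add_le_add h1 h2
    _ = _ := by
        rw [← ENNReal.ofReal_add h4 (by positivity)]

end Pool.Agent.H643.RO
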